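import Pool.Agent.Lib.MP_fa837f_gt.P2.Iface

/-!
Project P2, module E3: the variance of `a`.
-/

set_option autoImplicit false

open MeasureTheory Matrix Set Filter Topology

namespace Pool.Agent.Lib.MP_fa837f_gt.P2.H79

open Pool.Agent.Lib.MP_fa837f_gt.P2

variable {n k : ℕ}

theorem Yv_single (m : Fin n → Fin k → ℝ) (p : Fin k × Fin 3) (l : Fin n) (c : Fin 3) :
    Yv m (Pi.single p 1) l c = if c = p.2 then m l p.1 else 0 := by
  unfold Yv
  by_cases hc : c = p.2
  · rw [if_pos hc, Finset.sum_eq_single p.1]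
    · have h : (p.1, c) = p := by rw [hc]
      rw [h, Pi.single_eq_same, mul_one]
    · intro a _ ha
      have h : (a, c) ≠ p := fun h => ha (by rw [← h])
      rw [Pi.single_eq_of_ne h, mul_zero]
    · intro h
      exact absurd (Finset.mem_univ _) h
  · rw [if_neg hc]
    refine Finset.sum_eq_zero (fun a _ => ?_)
    have h : (a, c) ≠ p := fun h => hc (by rw [← h])
    rw [Pi.single_eq_of_ne h, mul_zero]

/-- The vectors `V_l = (2 δ / L_l) r_l α_ll y_l`. -/
noncomputable def VV (S : Sys n k) (τ : Fin n → ℝ) (y : Pt k) (l : Fin n) (c : Fin 3) : ℝ :=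
  2 * S.δ / S.L y l * (S.r y l * al S.m τ (S.r y) l l) * Yv S.m y l c

theorem pd_aa (S : Sys n k) (τ : Fin n → ℝ) (hR : RFacts S τ) (y : Pt k) (p : Fin k × Fin 3) :
    pd p (fun z => aa S.m τ (S.r z)) y = ∑ l, VV S τ y l p.2 * S.m l p.1 := by
  unfold pd
  rw [hR.daa y (Pi.single p 1)]
  refine Finset.sum_congr rfl (fun l _ => ?_)
  have h1 : ∑ c, Yv S.m y l c * Yv S.m (Pi.single p 1) l c = Yv S.m y l p.2 * S.m l p.1 := by
    rw [Finset.sum_eq_single p.2]
    · rw [Yv_single, if_pos rfl]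
    · intro c _ hc
      rw [Yv_single, if_neg hc, mul_zero]
    · intro h
      exact absurd (Finset.mem_univ _) h
  unfold Sys.dl VV
  rw [h1]
  ring

theorem quad_eq (m : Fin n → Fin k → ℝ) (Q : Matrix (Fin k) (Fin k) ℝ) (V : Fin n → Fin 3 → ℝ) :
    ∑ p : Fin k × Fin 3, ∑ q : Fin k × Fin 3, (if p.2 = q.2 then Q p.1 q.1 else 0) *
      (∑ l, V l p.2 * m l p.1) * (∑ l, V l q.2 * m l q.1) =
    ∑ i, ∑ j, (m i ⬝ᵥ (Q *ᵥ m j)) * (V i ⬝ᵥ V j) := by
  have h1 : ∀ i j, (m i ⬝ᵥ (Q *ᵥ m j)) * (V i ⬝ᵥ V j) =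
      ∑ a, ∑ b, ∑ c, Q a b * (V i c * m i a) * (V j c * m j b) := by
    intro i j
    simp only [dotProduct, mulVec]
    rw [Finset.sum_mul]
    refine Finset.sum_congr rfl (fun a _ => ?_)
    rw [mul_assoc, Finset.sum_mul_sum, Finset.mul_sum]
    refine Finset.sum_congr rfl (fun b _ => ?_)
    rw [Finset.mul_sum]
    refine Finset.sum_congr rfl (fun c _ => ?_)
    ring
  have h2 : ∀ p q : Fin k × Fin 3, (if p.2 = q.2 then Q p.1 q.1 else 0) *
      (∑ l, V l p.2 * m l p.1) * (∑ l, V l q.2 * m l q.1) =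
      ∑ i, ∑ j, (if p.2 = q.2 then Q p.1 q.1 else 0) * (V i p.2 * m i p.1) *
        (V j q.2 * m j q.1) := by
    intro p q
    rw [mul_assoc, Finset.sum_mul_sum, Finset.mul_sum]
    refine Finset.sum_congr rfl (fun i _ => ?_)
    rw [Finset.mul_sum]
    refine Finset.sum_congr rfl (fun j _ => ?_)
    ring
  simp_rw [h1, h2]
  -- interchange the sums
  have h3 : ∑ p : Fin k × Fin 3, ∑ q : Fin k × Fin 3, ∑ i, ∑ j,
      (if p.2 = q.2 then Q p.1 q.1 else 0) * (V i p.2 * m i p.1) * (V j q.2 * m j q.1) =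
      ∑ i, ∑ j, ∑ p : Fin k × Fin 3, ∑ q : Fin k × Fin 3,
        (if p.2 = q.2 then Q p.1 q.1 else 0) * (V i p.2 * m i p.1) * (V j q.2 * m j q.1) := by
    calc _ = ∑ p : Fin k × Fin 3, ∑ i, ∑ q : Fin k × Fin 3, ∑ j,
        (if p.2 = q.2 then Q p.1 q.1 else 0) * (V i p.2 * m i p.1) * (V j q.2 * m j q.1) :=
          Finset.sum_congr rfl (fun p _ => Finset.sum_comm)
      _ = ∑ i, ∑ p : Fin k × Fin 3, ∑ q : Fin k × Fin 3, ∑ j,
        (if p.2 = q.2 then Q p.1 q.1 else 0) * (V i p.2 * m i p.1) * (V j q.2 * m j q.1) :=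
          Finset.sum_comm
      _ = ∑ i, ∑ p : Fin k × Fin 3, ∑ j, ∑ q : Fin k × Fin 3,
        (if p.2 = q.2 then Q p.1 q.1 else 0) * (V i p.2 * m i p.1) * (V j q.2 * m j q.1) :=
          Finset.sum_congr rfl (fun i _ => Finset.sum_congr rfl (fun p _ => Finset.sum_comm))
      _ = _ := Finset.sum_congr rfl (fun i _ => Finset.sum_comm)
  rw [h3]
  refine Finset.sum_congr rfl (fun i _ => Finset.sum_congr rfl (fun j _ => ?_))
  rw [Fintype.sum_prod_type]
  refine Finset.sum_congr rfl (fun a _ => ?_)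
  have h4 : ∀ c : Fin 3, ∑ q : Fin k × Fin 3, (if c = q.2 then Q a q.1 else 0) *
      (V i c * m i a) * (V j q.2 * m j q.1) =
      ∑ b, Q a b * (V i c * m i a) * (V j c * m j b) := by
    intro c
    rw [Fintype.sum_prod_type]
    refine Finset.sum_congr rfl (fun b _ => ?_)
    rw [Finset.sum_eq_single c]
    · rw [if_pos rfl]
    · intro d _ hd
      rw [if_neg (fun h => hd h.symm), zero_mul, zero_mul]
    · intro h
      exact absurd (Finset.mem_univ _) h
  calc _ = ∑ c : Fin 3, ∑ b, Q a b * (V i c * m i a) * (V j c * m j b) :=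
        Finset.sum_congr rfl (fun c _ => h4 c)
    _ = _ := Finset.sum_comm

theorem gam_aa (S : Sys n k) (τ : Fin n → ℝ) (hR : RFacts S τ) (y : Pt k) :
    Gam S.A (fun z => aa S.m τ (S.r z)) (fun z => aa S.m τ (S.r z)) y =
      ∑ i, ∑ j, be S.m (S.r y) i j * (VV S τ y i ⬝ᵥ VV S τ y j) := by
  unfold Gam
  simp_rw [pd_aa S τ hR]
  exact quad_eq S.m (RR S.m (S.r y))⁻¹ (VV S τ y)

/-- E3. -/
theorem e3_st (hWs : WsStatement) (hSl : SlStatement) (hSr : SrStatement) (hTm : TmStatement)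
    (hTs : TsStatement) (hIn : InStatement) (hPo : PoStatement) : E3Statement := by
  intro n k S τ
  have hL := hSl n k S
  have hR := hSr n k S τ
  have hT := hTs n k S τ
  obtain ⟨tadd, tmul, tconst, tcs, pb, tsum⟩ := hTm k
  -- `X₁` is tame
  have hX : Tame (S.X1d τ) := by
    have h1 : ∀ i, Tame fun y => S.r y i * al S.m τ (S.r y) i i ^ 2 / S.L y i := by
      intro i
      have h2 := tmul _ _ (tmul _ _ (hT.tr i) (tmul _ _ (hT.tal i i) (hT.tal i i))) (hT.tLi i)
      have h3 : (fun y => S.r y i * al S.m τ (S.r y) i i ^ 2 / S.L y i) = fun y =>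
          S.r y i * (al S.m τ (S.r y) i i * al S.m τ (S.r y) i i) * (S.L y i)⁻¹ := by
        funext y
        rw [div_eq_mul_inv, pow_two]
      rw [h3]
      exact h2
    exact tsum _ (fun i y => S.r y i * al S.m τ (S.r y) i i ^ 2 / S.L y i) h1
  have hXi : Integrable fun y => S.X1d τ y * S.rho y := hIn n k S _ hX.smooth.continuous hX.bd
  -- the pointwise estimate
  have hpt : ∀ y, 0 ≤ Gam S.A (fun z => aa S.m τ (S.r z)) (fun z => aa S.m τ (S.r z)) y ∧
      Gam S.A (fun z => aa S.m τ (S.r z)) (fun z => aa S.m τ (S.r z)) y ≤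
        4 * S.δ ^ 2 * S.X1d τ y := by
    intro y
    have hw := hWs n k S.m (S.r y) S.hm (hL.rpos y) (Fin 3) (VV S τ y)
    rw [gam_aa S τ hR y]
    refine ⟨hw.1, hw.2.1.trans ?_⟩
    unfold Sys.X1d
    rw [Finset.mul_sum]
    refine Finset.sum_le_sum (fun i _ => ?_)
    have hr := hL.rpos y i
    have hLp := hL.Lpos y i
    have hlam : Gm S.m y i i ≤ S.L y i := by
      unfold Sys.L
      have := S.he i
      linarith
    have hd : VV S τ y i ⬝ᵥ VV S τ y i =
        (2 * S.δ / S.L y i * (S.r y i * al S.m τ (S.r y) i i)) ^ 2 * Gm S.m y i i := by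
      unfold VV Gm
      simp only [dotProduct]
      rw [Finset.mul_sum]
      refine Finset.sum_congr rfl (fun c _ => ?_)
      ring
    rw [hd]
    have e1 : (2 * S.δ / S.L y i * (S.r y i * al S.m τ (S.r y) i i)) ^ 2 * Gm S.m y i i / S.r y i =
        4 * S.δ ^ 2 * (S.r y i * al S.m τ (S.r y) i i ^ 2 / S.L y i) * (Gm S.m y i i / S.L y i) := by
      field_simp
      ring
    rw [e1]
    have e2 : 0 ≤ 4 * S.δ ^ 2 * (S.r y i * al S.m τ (S.r y) i i ^ 2 / S.L y i) := by positivity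
    have e3 : Gm S.m y i i / S.L y i ≤ 1 := by
      rw [div_le_one hLp]
      exact hlam
    calc _ ≤ 4 * S.δ ^ 2 * (S.r y i * al S.m τ (S.r y) i i ^ 2 / S.L y i) * 1 :=
          mul_le_mul_of_nonneg_left e3 e2
      _ = _ := mul_one _
  have hpo := hPo n k S _ hT.taa
  refine hpo.trans ?_
  have hrho : 0 ≤ ∫ y, S.rho y := integral_nonneg (fun y => (hR.rhopos y).le)
  refine mul_le_mul_of_nonneg_left ?_ hrho
  rw [← integral_const_mul]
  refine integral_mono_of_nonneg (Filter.Eventually.of_forall fun y => ?_) (hXi.const_mul _)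
    (Filter.Eventually.of_forall fun y => ?_)
  · exact mul_nonneg (hpt y).1 (hR.rhopos y).le
  · have := mul_le_mul_of_nonneg_right (hpt y).2 (hR.rhopos y).le
    show Gam S.A (fun z => aa S.m τ (S.r z)) (fun z => aa S.m τ (S.r z)) y * S.rho y ≤
      4 * S.δ ^ 2 * (S.X1d τ y * S.rho y)
    rw [← mul_assoc]
    exact this

end Pool.Agent.Lib.MP_fa837f_gt.P2.H79
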